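import Mathlib

/-!
# Points with a nonzero evaluation determinant
-/

set_option autoImplicit false

namespace Pool.Agent.Helper45.TNC

/-- A nonzero subspace stable under the Galois group contains a nonzero rational vector. -/
theorem exists_rational {K E : Type} [Field K] [Field E] [Algebra K E] [IsGalois K E]
    {ι : Type} [Fintype ι] (W : Submodule E (ι → E))
    (hW : ∀ (σ : E ≃ₐ[K] E), ∀ w ∈ W, (fun i => σ (w i)) ∈ W) (hne : W ≠ ⊥) :
    ∃ c : ι → K, c ≠ 0 ∧ (fun i => algebraMap K E (c i)) ∈ W := by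
  classical
  obtain ⟨w₀, hw₀, hw₀0⟩ := (Submodule.ne_bot_iff W).1 hne
  have hex : ∃ n : ℕ, ∃ w ∈ W, w ≠ 0 ∧ (Finset.univ.filter fun i => w i ≠ 0).card = n :=
    ⟨_, w₀, hw₀, hw₀0, rfl⟩
  obtain ⟨w, hw, hw0, hcard⟩ := Nat.find_spec hex
  have hmin : ∀ v ∈ W, (Finset.univ.filter fun i => v i ≠ 0).card < Nat.find hex → v = 0 := by
    intro v hv hlt
    by_contra h0
    exact Nat.find_min hex hlt ⟨v, hv, h0, rfl⟩
  obtain ⟨i₀, hi₀⟩ := Function.ne_iff.1 hw0
  have hi₀' : w i₀ ≠ 0 := hi₀
  set u : ι → E := (w i₀)⁻¹ • w with hu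
  have huW : u ∈ W := W.smul_mem _ hw
  have hu1 : u i₀ = 1 := by
    rw [hu, Pi.smul_apply, smul_eq_mul, inv_mul_cancel₀ hi₀']
  have husupp : (Finset.univ.filter fun i => u i ≠ 0) = Finset.univ.filter fun i => w i ≠ 0 := by
    ext i
    simp [hu, hi₀']
  have hfix : ∀ (σ : E ≃ₐ[K] E) i, σ (u i) = u i := by
    intro σ i
    have h1 : (fun i => σ (u i)) - u ∈ W := W.sub_mem (hW σ u huW) huW
    have h2 : (fun i => σ (u i)) - u = 0 := by
      refine hmin _ h1 ?_
      rw [← hcard, ← husupp]
      refine Finset.card_lt_card ⟨?_, ?_⟩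
      · intro j hj
        rw [Finset.mem_filter] at hj ⊢
        refine ⟨Finset.mem_univ _, fun h3 => hj.2 ?_⟩
        rw [Pi.sub_apply, h3, map_zero, sub_zero]
      · intro hsub
        have h3 : i₀ ∈ Finset.univ.filter fun i => u i ≠ 0 := by
          rw [Finset.mem_filter, hu1]
          exact ⟨Finset.mem_univ _, one_ne_zero⟩
        have h4 := hsub h3
        rw [Finset.mem_filter, Pi.sub_apply, hu1, map_one, sub_self] at h4
        exact h4.2 rfl
    have h3 := congrFun h2 i
    rw [Pi.sub_apply, Pi.zero_apply, sub_eq_zero] at h3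
    exact h3
  have hrat : ∀ i, ∃ c : K, algebraMap K E c = u i := by
    intro i
    have h1 : u i ∈ (⊥ : IntermediateField K E) :=
      (InfiniteGalois.mem_bot_iff_fixed (u i)).2 fun σ => hfix σ i
    exact IntermediateField.mem_bot.1 h1
  choose c hc using hrat
  refine ⟨c, ?_, ?_⟩
  · intro h0
    have h1 := hc i₀
    rw [h0, Pi.zero_apply, map_zero, hu1] at h1
    exact zero_ne_one h1
  · have h1 : (fun i => algebraMap K E (c i)) = u := funext hc
    rw [h1]
    exact huW

/-- Functions which are linearly independent on a set have a nonzero evaluation determinant. -/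
theorem exists_det_ne_zero {E X ι : Type} [Field E] [Fintype ι] [DecidableEq ι] (f : ι → X → E)
    (S : Set X) (h : ∀ c : ι → E, (∀ x ∈ S, ∑ i, c i * f i x = 0) → c = 0) :
    ∃ P : ι → X, (∀ i, P i ∈ S) ∧ (Matrix.of fun i j => f i (P j)).det ≠ 0 := by
  classical
  set s : Set (ι → E) := (fun x i => f i x) '' S with hs
  have htop : Submodule.span E s = ⊤ := by
    by_contra hcon
    obtain ⟨φ, hφ0, hφ⟩ := Submodule.exists_le_ker_of_lt_top _ (lt_top_iff_ne_top.2 hcon)
    apply hφ0
    have hφs : ∀ v : ι → E, φ v = ∑ i, φ (Pi.single i 1) * v i := by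
      intro v
      conv_lhs => rw [← (Pi.basisFun E ι).sum_repr v]
      rw [map_sum]
      refine Finset.sum_congr rfl fun i _ => ?_
      rw [map_smul, Pi.basisFun_repr, Pi.basisFun_apply, smul_eq_mul, mul_comm]
    have h2 := h (fun i => φ (Pi.single i 1)) (fun x hx => by
      have h3 := hφ (Submodule.subset_span (Set.mem_image_of_mem (fun x i => f i x) hx))
      rw [LinearMap.mem_ker, hφs] at h3
      exact h3)
    refine LinearMap.ext fun v => ?_
    rw [hφs, LinearMap.zero_apply]
    refine Finset.sum_eq_zero fun i _ => ?_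
    have h3 : φ (Pi.single i 1) = 0 := congrFun h2 i
    rw [h3, zero_mul]
  obtain ⟨b, hbs, hspan, hli⟩ := exists_linearIndependent E s
  rw [htop] at hspan
  let B : Module.Basis b E (ι → E) := Module.Basis.mk hli (by
    rw [Subtype.range_coe_subtype, Set.ofPred_mem_eq, hspan])
  have : Fintype b := FiniteDimensional.fintypeBasisIndex B
  have hcard : Fintype.card b = Fintype.card ι := by
    rw [← Module.finrank_eq_card_basis B, Module.finrank_fintype_fun_eq_card]
  let e : ι ≃ b := Fintype.equivOfCardEq hcard.symm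
  have hx : ∀ j : ι, ∃ x ∈ S, (fun i => f i x) = (e j : ι → E) := fun j => hbs (e j).2
  choose P hP hPe using hx
  refine ⟨P, hP, ?_⟩
  have h1 : LinearIndependent E fun j => (Matrix.of fun i j => f i (P j)).col j := by
    have h2 : (fun j => (Matrix.of fun i j => f i (P j)).col j) =
        (fun v : b => (v : ι → E)) ∘ e := by
      funext j
      exact hPe j
    rw [h2]
    exact hli.comp e e.injective
  have h2 := Matrix.linearIndependent_cols_iff_isUnit.1 h1
  exact ((Matrix.isUnit_iff_isUnit_det _).1 h2).ne_zero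

/-- Points with a nonzero evaluation determinant, for functions over `K` and a set of points over
`E` stable under the Galois group. -/
theorem exists_points {K E X ι : Type} [Field K] [Field E] [Algebra K E] [IsGalois K E]
    [Fintype ι] [DecidableEq ι] (S : Set X) (act : (E ≃ₐ[K] E) → X → X)
    (hact : ∀ σ, ∀ x ∈ S, act σ x ∈ S) (f : ι → X → E)
    (hf : ∀ i σ x, f i (act σ x) = σ (f i x))
    (h : ∀ c : ι → K, (∀ x ∈ S, ∑ i, algebraMap K E (c i) * f i x = 0) → c = 0) :
    ∃ P : ι → X, (∀ i, P i ∈ S) ∧ (Matrix.of fun i j => f i (P j)).det ≠ 0 := by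
  classical
  refine exists_det_ne_zero f S fun c hc => ?_
  let W : Submodule E (ι → E) :=
    { carrier := {c | ∀ x ∈ S, ∑ i, c i * f i x = 0}
      zero_mem' := fun x _ => by simp
      add_mem' := fun {a b} ha hb x hx => by
        simp only [Pi.add_apply, add_mul, Finset.sum_add_distrib]
        rw [ha x hx, hb x hx, add_zero]
      smul_mem' := fun t a ha x hx => by
        simp only [Pi.smul_apply, smul_eq_mul, mul_assoc]
        rw [← Finset.mul_sum, ha x hx, mul_zero] }
  by_contra hc0
  have hne : W ≠ ⊥ := (Submodule.ne_bot_iff W).2 ⟨c, hc, hc0⟩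
  obtain ⟨c', hc', hcW⟩ := exists_rational (K := K) W (fun σ w hw x hx => by
    have h1 := hw (act σ⁻¹ x) (hact _ x hx)
    have h2 := congrArg σ h1
    rw [map_zero, map_sum] at h2
    rw [← h2]
    refine Finset.sum_congr rfl fun i _ => ?_
    rw [map_mul, hf]
    congr 1
    exact (σ.apply_symm_apply (f i x)).symm) hne
  exact hc' (h c' hcW)

/-- Points of a Galois stable set with a nonzero evaluation determinant. -/
theorem exists_points_forms {σ' : Type} {K E ι : Type} [Field K] [Field E] [Algebra K E]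
    [IsGalois K E] [Fintype ι] [DecidableEq ι] (S : Set (σ' → E))
    (hS : ∀ σ : E ≃ₐ[K] E, ∀ P ∈ S, (fun i => σ (P i)) ∈ S) (g : ι → MvPolynomial σ' K)
    (h : ∀ c : ι → K, (∀ P ∈ S, MvPolynomial.aeval P (∑ i, c i • g i) = 0) → c = 0) :
    ∃ P : ι → σ' → E, (∀ j, P j ∈ S) ∧
      (Matrix.of fun i j => MvPolynomial.aeval (P j) (g i)).det ≠ 0 := by
  refine exists_points S (fun σ P i => σ (P i)) hS (fun i P => MvPolynomial.aeval P (g i)) ?_ ?_
  · intro i σ P
    have h1 := MvPolynomial.comp_aeval (R := K) P (σ : E →ₐ[K] E)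
    exact (DFunLike.congr_fun h1 (g i)).symm
  · intro c hc
    refine h c fun P hP => ?_
    rw [map_sum, ← hc P hP]
    refine Finset.sum_congr rfl fun i _ => ?_
    rw [map_smul, Algebra.smul_def]

/-- The coordinates of finitely many algebraic points generate a finite extension. -/
theorem exists_finite_field {σ' : Type} [Finite σ'] {K E ι : Type} [Field K] [Field E]
    [Algebra K E] [Algebra.IsAlgebraic K E] [Finite ι] (P : ι → σ' → E) :
    ∃ (M : IntermediateField K E), FiniteDimensional K M ∧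
      ∃ P' : ι → σ' → M, ∀ i a, (P' i a : E) = P i a := by
  have h1 : FiniteDimensional K
      (IntermediateField.adjoin K (Set.range fun p : ι × σ' => P p.1 p.2)) := by
    have := Set.finite_range fun p : ι × σ' => P p.1 p.2
    exact IntermediateField.finiteDimensional_adjoin fun x _ =>
      (Algebra.IsAlgebraic.isAlgebraic x).isIntegral
  exact ⟨_, h1, fun i a => ⟨P i a, IntermediateField.subset_adjoin K _ ⟨(i, a), rfl⟩⟩,
    fun _ _ => rfl⟩

/-- A quadratic inequality for all natural numbers. -/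
theorem quad_le {a x y : ℤ} (h : ∀ J : ℕ, a * (J : ℤ) ^ 2 ≤ x * J + y) : a ≤ 0 := by
  by_contra hcon
  push Not at hcon
  have h1 := h (x.natAbs + y.natAbs + 1)
  have hx : x ≤ (x.natAbs : ℤ) := Int.le_natAbs
  have hy : y ≤ (y.natAbs : ℤ) := Int.le_natAbs
  push_cast at h1
  have hxn := abs_nonneg x
  have hyn := abs_nonneg y
  have hxa := le_abs_self x
  have hya := le_abs_self y
  set J : ℤ := |x| + |y| + 1 with hJ
  have hJ1 : 1 ≤ J := by linarith
  have h2 : J ^ 2 ≤ a * J ^ 2 := le_mul_of_one_le_left (by positivity) hcon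
  have h3 : x * J ≤ |x| * J := mul_le_mul_of_nonneg_right hxa (by linarith)
  have h4 : y ≤ |y| * J := hya.trans (le_mul_of_one_le_right hyn hJ1)
  have h5 : J ^ 2 = |x| * J + |y| * J + J := by rw [hJ]; ring
  linarith

/-- The comparison of the leading terms. -/
theorem leading_le {e D r₀ m₁ A H S₁ S₂ C : ℤ} (h : ∀ J : ℕ, e * J * (J + 1) * A ≤
    (D * J * (J - 1) + 2 * r₀ * J) * H + 2 * J * S₁ + 2 * S₂ +
      2 * (m₁ + J * e) * (r₀ + J * D) * C) : e * A ≤ D * H + 2 * e * D * C := by
  have h1 : ∀ J : ℕ, (e * A - D * H - 2 * e * D * C) * (J : ℤ) ^ 2 ≤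
      (-(e * A) - D * H + 2 * r₀ * H + 2 * S₁ + 2 * (m₁ * D + e * r₀) * C) * J +
        (2 * S₂ + 2 * m₁ * r₀ * C) := by
    intro J
    have h2 := h J
    linarith [h2, show e * J * (J + 1) * A = e * A * (J : ℤ) ^ 2 + e * A * J by ring,
      show (D * J * (J - 1) + 2 * r₀ * J) * H =
        D * H * (J : ℤ) ^ 2 - D * H * J + 2 * r₀ * H * J by ring,
      show 2 * (m₁ + J * e) * (r₀ + J * D) * C = 2 * e * D * C * (J : ℤ) ^ 2 +
        2 * (m₁ * D + e * r₀) * C * J + 2 * m₁ * r₀ * C by ring]
  linarith [quad_le h1]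

end Pool.Agent.Helper45.TNC
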